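import Pool.Agent.H70.AB.W158.Data

/-!
# Anchors and witnesses W158
-/

namespace Pool.Agent.H70.AB.W158

/-- anchors -/
def anc1 : List (ℕ × ℕ × List ℕ) :=
  List.cons (nat_lit 18490, nat_lit 0, List.cons (nat_lit 101193) <| List.cons (nat_lit 14537) <| List.cons (nat_lit 16193) <| List.cons (nat_lit 45817) <| List.nil) <|
  List.cons (nat_lit 18941, nat_lit 0, List.cons (nat_lit 33137) <| List.cons (nat_lit 61609) <| List.cons (nat_lit 28785) <| List.cons (nat_lit 37529) <| List.nil) <|
  List.cons (nat_lit 19392, nat_lit 0, List.cons (nat_lit 75153) <| List.cons (nat_lit 91721) <| List.cons (nat_lit 22913) <| List.cons (nat_lit 83649) <| List.nil) <|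
  List.cons (nat_lit 19843, nat_lit 0, List.cons (nat_lit 26729) <| List.cons (nat_lit 92393) <| List.cons (nat_lit 93009) <| List.cons (nat_lit 45905) <| List.nil) <|
  List.cons (nat_lit 20294, nat_lit 0, List.cons (nat_lit 89873) <| List.cons (nat_lit 30745) <| List.cons (nat_lit 15873) <| List.cons (nat_lit 72680) <| List.nil) <|
  List.cons (nat_lit 20745, nat_lit 0, List.cons (nat_lit 87193) <| List.cons (nat_lit 31121) <| List.cons (nat_lit 16257) <| List.cons (nat_lit 55009) <| List.nil) <|
  List.cons (nat_lit 21196, nat_lit 0, List.cons (nat_lit 47537) <| List.cons (nat_lit 32017) <| List.cons (nat_lit 14025) <| List.nil) <|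
  List.cons (nat_lit 21647, nat_lit 0, List.cons (nat_lit 32337) <| List.cons (nat_lit 46881) <| List.cons (nat_lit 90313) <| List.cons (nat_lit 76169) <| List.nil) <|
  List.cons (nat_lit 22098, nat_lit 0, List.cons (nat_lit 32713) <| List.cons (nat_lit 87169) <| List.cons (nat_lit 94113) <| List.nil) <|
  List.cons (nat_lit 22549, nat_lit 0, List.cons (nat_lit 96282) <| List.cons (nat_lit 70961) <| List.nil) <|
  List.cons (nat_lit 22850, nat_lit 0, List.cons (nat_lit 92777) <| List.cons (nat_lit 74673) <| List.cons (nat_lit 29081) <| List.cons (nat_lit 2680) <| List.nil) <|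
  []

/-- anchors -/
def anc0 : List (ℕ × ℕ × List ℕ) :=
  List.cons (nat_lit 450, nat_lit 0, List.cons (nat_lit 99249) <| List.cons (nat_lit 45905) <| List.cons (nat_lit 21785) <| List.cons (nat_lit 26681) <| List.cons (nat_lit 16920) <| List.nil) <|
  List.cons (nat_lit 901, nat_lit 0, List.cons (nat_lit 40536) <| List.cons (nat_lit 18353) <| List.cons (nat_lit 79962) <| List.nil) <|
  List.cons (nat_lit 1352, nat_lit 0, List.cons (nat_lit 63169) <| List.cons (nat_lit 42497) <| List.cons (nat_lit 44065) <| List.cons (nat_lit 25057) <| List.nil) <|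
  List.cons (nat_lit 1803, nat_lit 0, List.cons (nat_lit 102346) <| List.cons (nat_lit 41905) <| List.nil) <|
  List.cons (nat_lit 2254, nat_lit 0, List.cons (nat_lit 85169) <| List.cons (nat_lit 81385) <| List.cons (nat_lit 48273) <| List.cons (nat_lit 28648) <| List.nil) <|
  List.cons (nat_lit 2705, nat_lit 0, List.cons (nat_lit 905) <| List.cons (nat_lit 3977) <| List.cons (nat_lit 12329) <| List.cons (nat_lit 87730) <| List.nil) <|
  List.cons (nat_lit 3156, nat_lit 0, List.cons (nat_lit 28465) <| List.cons (nat_lit 45745) <| List.cons (nat_lit 63649) <| List.nil) <|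
  List.cons (nat_lit 3607, nat_lit 0, List.cons (nat_lit 25329) <| List.cons (nat_lit 58314) <| List.cons (nat_lit 35448) <| List.nil) <|
  List.cons (nat_lit 4058, nat_lit 0, List.cons (nat_lit 62106) <| List.cons (nat_lit 33721) <| List.nil) <|
  List.cons (nat_lit 4509, nat_lit 0, List.cons (nat_lit 49769) <| List.cons (nat_lit 24065) <| List.cons (nat_lit 74921) <| List.cons (nat_lit 71849) <| List.nil) <|
  List.cons (nat_lit 4960, nat_lit 0, List.cons (nat_lit 7096) <| List.cons (nat_lit 3129) <| List.cons (nat_lit 41377) <| List.cons (nat_lit 102577) <| List.cons (nat_lit 45697) <| List.nil) <|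
  List.cons (nat_lit 5411, nat_lit 0, List.cons (nat_lit 22729) <| List.cons (nat_lit 15577) <| List.cons (nat_lit 92833) <| List.nil) <|
  List.cons (nat_lit 5862, nat_lit 0, List.cons (nat_lit 40209) <| List.cons (nat_lit 89697) <| List.cons (nat_lit 22753) <| List.cons (nat_lit 24177) <| List.nil) <|
  List.cons (nat_lit 6313, nat_lit 0, List.cons (nat_lit 87897) <| List.cons (nat_lit 88466) <| List.cons (nat_lit 15281) <| List.nil) <|
  List.cons (nat_lit 6764, nat_lit 0, List.cons (nat_lit 945) <| List.cons (nat_lit 23281) <| List.cons (nat_lit 33058) <| List.nil) <|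
  List.cons (nat_lit 7215, nat_lit 0, List.cons (nat_lit 15409) <| List.cons (nat_lit 95753) <| List.cons (nat_lit 5305) <| List.cons (nat_lit 4313) <| List.cons (nat_lit 21656) <| List.nil) <|
  List.cons (nat_lit 7666, nat_lit 0, List.cons (nat_lit 87825) <| List.cons (nat_lit 67745) <| List.cons (nat_lit 25842) <| List.cons (nat_lit 9865) <| List.nil) <|
  List.cons (nat_lit 8117, nat_lit 0, List.cons (nat_lit 59937) <| List.cons (nat_lit 83217) <| List.cons (nat_lit 449) <| List.cons (nat_lit 88834) <| List.nil) <|
  List.cons (nat_lit 8568, nat_lit 0, List.cons (nat_lit 59145) <| List.cons (nat_lit 47305) <| List.cons (nat_lit 48226) <| List.cons (nat_lit 99961) <| List.cons (nat_lit 3057) <| List.cons (nat_lit 35464) <| List.nil) <|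
  List.cons (nat_lit 9019, nat_lit 0, List.cons (nat_lit 78209) <| List.cons (nat_lit 89018) <| List.cons (nat_lit 6345) <| List.cons (nat_lit 103873) <| List.nil) <|
  List.cons (nat_lit 9470, nat_lit 0, List.cons (nat_lit 87137) <| List.cons (nat_lit 4065) <| List.cons (nat_lit 49641) <| List.cons (nat_lit 99737) <| List.cons (nat_lit 2512) <| List.nil) <|
  List.cons (nat_lit 9921, nat_lit 0, List.cons (nat_lit 96833) <| List.cons (nat_lit 7001) <| List.cons (nat_lit 5481) <| List.cons (nat_lit 47801) <| List.cons (nat_lit 42944) <| List.cons (nat_lit 103528) <| List.nil) <|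
  List.cons (nat_lit 10372, nat_lit 0, List.cons (nat_lit 100633) <| List.cons (nat_lit 89465) <| List.cons (nat_lit 27625) <| List.nil) <|
  List.cons (nat_lit 10823, nat_lit 0, List.cons (nat_lit 9609) <| List.cons (nat_lit 18225) <| List.cons (nat_lit 67186) <| List.cons (nat_lit 96833) <| List.nil) <|
  List.cons (nat_lit 11274, nat_lit 0, List.cons (nat_lit 57057) <| List.cons (nat_lit 103201) <| List.cons (nat_lit 57961) <| List.nil) <|
  List.cons (nat_lit 11725, nat_lit 0, List.cons (nat_lit 83953) <| List.cons (nat_lit 89473) <| List.cons (nat_lit 76001) <| List.nil) <|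
  List.cons (nat_lit 12176, nat_lit 0, List.cons (nat_lit 17569) <| List.cons (nat_lit 95289) <| List.cons (nat_lit 86009) <| List.cons (nat_lit 87433) <| List.nil) <|
  List.cons (nat_lit 12627, nat_lit 0, List.cons (nat_lit 84577) <| List.cons (nat_lit 55241) <| List.cons (nat_lit 67554) <| List.nil) <|
  List.cons (nat_lit 13078, nat_lit 0, List.cons (nat_lit 82297) <| List.cons (nat_lit 50761) <| List.cons (nat_lit 56546) <| List.cons (nat_lit 98705) <| List.nil) <|
  List.cons (nat_lit 13529, nat_lit 0, List.cons (nat_lit 77193) <| List.cons (nat_lit 74865) <| List.cons (nat_lit 88273) <| List.nil) <|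
  List.cons (nat_lit 13980, nat_lit 0, List.cons (nat_lit 83697) <| List.cons (nat_lit 44065) <| List.cons (nat_lit 69561) <| List.cons (nat_lit 59905) <| List.cons (nat_lit 73113) <| List.nil) <|
  List.cons (nat_lit 14431, nat_lit 0, List.cons (nat_lit 62777) <| List.cons (nat_lit 4265) <| List.cons (nat_lit 100401) <| List.cons (nat_lit 48561) <| List.nil) <|
  List.cons (nat_lit 14882, nat_lit 0, List.cons (nat_lit 38057) <| List.cons (nat_lit 94425) <| List.cons (nat_lit 88841) <| List.nil) <|
  List.cons (nat_lit 15333, nat_lit 0, List.cons (nat_lit 4169) <| List.cons (nat_lit 94673) <| List.cons (nat_lit 34049) <| List.cons (nat_lit 88161) <| List.nil) <|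
  List.cons (nat_lit 15784, nat_lit 0, List.cons (nat_lit 32697) <| List.cons (nat_lit 87041) <| List.cons (nat_lit 27498) <| List.nil) <|
  List.cons (nat_lit 16235, nat_lit 0, List.cons (nat_lit 78017) <| List.cons (nat_lit 52393) <| List.cons (nat_lit 76785) <| List.nil) <|
  List.cons (nat_lit 16686, nat_lit 0, List.cons (nat_lit 6009) <| List.cons (nat_lit 67401) <| List.cons (nat_lit 47153) <| List.cons (nat_lit 49752) <| List.nil) <|
  List.cons (nat_lit 17137, nat_lit 0, List.cons (nat_lit 12393) <| List.cons (nat_lit 32233) <| List.cons (nat_lit 51049) <| List.cons (nat_lit 71761) <| List.nil) <|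
  List.cons (nat_lit 17588, nat_lit 0, List.cons (nat_lit 57953) <| List.cons (nat_lit 2609) <| List.cons (nat_lit 68049) <| List.cons (nat_lit 68800) <| List.nil) <|
  List.cons (nat_lit 18039, nat_lit 0, List.cons (nat_lit 63753) <| List.cons (nat_lit 27377) <| List.cons (nat_lit 8481) <| List.cons (nat_lit 69577) <| List.nil) <|
  anc1

/-- witnesses -/
def wit : List ℕ :=
  List.cons (nat_lit 1) <| List.cons (nat_lit 2) <| List.cons (nat_lit 5) <| List.cons (nat_lit 6) <| List.cons (nat_lit 8) <| List.cons (nat_lit 9) <| List.cons (nat_lit 10) <| List.cons (nat_lit 11) <| List.cons (nat_lit 38) <| List.cons (nat_lit 127) <| List.cons (nat_lit 249) <| List.cons (nat_lit 925) <| List.nil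

theorem num1 : A.numOK = true := by decide +kernel

theorem num2 : A.numOK2 (nat_lit 1920) (nat_lit 13440) (nat_lit 1) (nat_lit 13963) (nat_lit 925) = true := by decide +kernel

theorem ancOK : A.ancs (nat_lit 1920) (nat_lit 13440) (nat_lit 22851) anc0 (nat_lit 0) = true := by decide +kernel

theorem devOK : A.devchk (nat_lit 13440) (nat_lit 1) = true := by decide +kernel

theorem leaOK : A.lea (nat_lit 36726) wit = true := by decide +kernel

theorem bndOK : bndW (nat_lit 925) wit = true := by decide +kernel

theorem vOK : A.v1 = true := by decide +kernel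

end Pool.Agent.H70.AB.W158
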