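import Pool.Agent.H70.AB.Sound
import Pool.Agent.H70.AB.Reg
import Pool.Agent.H70.AB.W158.Cert
import Pool.Agent.H70.AB.W158.Dir0

/-!
# Conclusion W158
-/

namespace Pool.Agent.H70.AB.W158

theorem dirAll : ∀ m, 0 < m → m < 1920 → A.chk m = true := by
  intro m h1 h2
  by_cases h : m < 401
  · exact chkR_sound A 1 400 dir0 m (by omega) (by omega)
  push Not at h
  by_cases h : m < 801
  · exact chkR_sound A 401 400 dir1 m (by omega) (by omega)
  push Not at h
  by_cases h : m < 1201
  · exact chkR_sound A 801 400 dir2 m (by omega) (by omega)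
  push Not at h
  by_cases h : m < 1601
  · exact chkR_sound A 1201 400 dir3 m (by omega) (by omega)
  push Not at h
  exact chkR_sound A 1601 319 dir4 m (by omega) (by omega)

theorem final : Str A.word 22763 22763 2 88 0 ∧ Avoids 8 7 A.word ∧
    ∀ u, Avoids 8 7 u → A.word = u ∨ ∃ n, (∀ j, j < n → A.word j = u j) ∧ A.word n < u n :=
  Dat.final (A := A) num1 num2 dirAll ancOK devOK (fun h => h.v1_sound vOK) leaOK bndOK

end Pool.Agent.H70.AB.W158
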